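import Pool.Agent.H70.RZT.S
import Pool.Agent.H29.NF.MAINN

/-!
# RZT, FINTN: finitely many points over the extensions
-/

set_option autoImplicit false

namespace Pool.RZT

open Polynomial Matrix NumberField IsDedekindDomain Pool.HYP Pool.TOW Pool.AVS Pool.T1 Pool.NF

/-- An irreducible cubic stays irreducible over an extension whose degree is a power of two. -/
theorem irred_of_two_pow {K : Type} [Field K] (E : Type) [Field E] [Algebra K E]
    [FiniteDimensional K E] {m : ℕ} (hm : Module.finrank K E = 2 ^ m) {p : K[X]} (hp : p.Monic)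
    (hd : p.natDegree = 3) (hi : Irreducible p) : Irreducible (p.map (algebraMap K E)) := by
  have hd' : (p.map (algebraMap K E)).natDegree = 3 := by
    rw [hp.natDegree_map, hd]
  have hp' : (p.map (algebraMap K E)).Monic := hp.map _
  rw [Polynomial.irreducible_iff_roots_eq_zero_of_degree_le_three (by omega) (by omega)]
  by_contra h
  obtain ⟨a, ha⟩ := Multiset.exists_mem_of_ne_zero h
  have ha' : aeval a p = 0 := by
    have := (mem_roots'.1 ha).2
    rwa [IsRoot.def, eval_map, ← aeval_def] at this
  have h1 : minpoly K a = p := (minpoly.eq_of_irreducible_of_monic hi ha' hp).symm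
  have h2 : (minpoly K a).natDegree ∣ Module.finrank K E := minpoly.degree_dvd
    (Algebra.IsIntegral.isIntegral a)
  rw [h1, hd, hm] at h2
  have h3 := (Nat.prime_three.dvd_of_dvd_pow h2)
  omega

theorem fintn : FINTNStmt := by
  intro K _ _ E _ _ hfd hm f hf hd hi hs
  obtain ⟨m, hm⟩ := hm
  have : NumberField E := NumberField.of_module_finite K E
  have hfm : (fk K f).Monic := hf.map _
  have hd' : (fk K f).natDegree = 3 := by
    rw [fk, hf.natDegree_map, hd]
  exact finOdd_of (f := fkE K E f) (hfm.map _) (by rw [fkE, hfm.natDegree_map, hd'])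
    (irred_of_two_pow E hm hfm hd' hi) hs

end Pool.RZT
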