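import Pool.Agent.H70.RZT.S
import Pool.Agent.H18.T1.ZLDB

/-!
# RZT, LDBN: the classes of the twist, over `E`, where the twist is ramified and `E` is not
-/

set_option autoImplicit false

namespace Pool.RZT

open Polynomial Matrix NumberField IsDedekindDomain Pool.HYP Pool.TOW Pool.AVS Pool.T1 Pool.NF
open Pool.T1.Zldb18

theorem ldbn (hT : TW2Stmt) : LDBNStmt := by
  intro K _ _ g P ϖ E _ _ L _ O' ι hg HC f d α c γ x hf hn hγ hfL hPd hPd2 hα hN
    hL hx
  obtain ⟨u, w, s, hu, huf, hud, hs⟩ := hL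
  have hfK : (fkE K E f).Monic := (hf.map _).map _
  have hmap : (fkE K E (f.scaleRoots d)).map ι =
      (oL O' ((X - C c) * γ)).scaleRoots (ι (algebraMap K E (algebraMap (𝓞 K) K d))) := by
    have hf0 : ∀ {A : Type} [CommRing A] [Nontrivial A] (φ : (𝓞 K) →+* A),
        φ f.leadingCoeff ≠ 0 := by
      intro A _ _ φ
      rw [hf.leadingCoeff, map_one]
      exact one_ne_zero
    rw [← hfL, fkE, fkE, fk, fk, Polynomial.map_scaleRoots _ _ _ (hf0 _),
      Polynomial.map_scaleRoots, Polynomial.map_scaleRoots]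
    · rw [hfK.leadingCoeff, map_one]
      exact one_ne_zero
    · have h1 : (f.map (algebraMap (𝓞 K) K)).Monic := hf.map _
      rw [h1.leadingCoeff, map_one]
      exact one_ne_zero
  rw [hmap] at huf hud
  rw [hfL] at hs
  have hα' : IsCoprime (α.map ι) (oL O' ((X - C c) * γ)) := by
    rw [← hfL]
    exact hα.map (mapRingHom ι)
  have hN' : NSq (oL O' ((X - C c) * γ)) (α.map ι) := by
    rw [← hfL, NSq, Pool.HYP.nmu.2.2.2 E L ι (fkE K E f) α hfK]
    exact hN.map ι
  exact hT L O' (ι (algebraMap K E (algebraMap (𝓞 K) K ϖ))) HC.loc g c γ hg hγ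
    (ι (algebraMap K E (algebraMap (𝓞 K) K d))) (uniformizer HC hPd hPd2) u w s (α.map ι) x hu huf
    hud hs hα' hN' hx

end Pool.RZT
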